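import Pool.Agent.N70.EQ.Stm
import Pool.Agent.N558.AW.Even2

/-!
# EQ/HA (helper755 for helper70): the determinant of a multiplication matrix
-/

set_option autoImplicit false

namespace Pool.Agent.N755.EQ

open Polynomial Matrix
open Pool.Agent.N70.EQ (St_ha DivF)

/-- the rows are independent -/
theorem indep {N : Type} [Field N] {m b M : ℕ} (PP : Matrix (Fin m) (Fin m) N[X]) (a : N)
    (r : Fin M → N) (e : Fin M → Fin m → N) (ha : a ≠ 0)
    (hdeg : ∀ l l', (PP l l').natDegree ≤ b)
    (hc : ∀ l l', (PP l l').coeff b = if l = l' then a else 0) (hr : Function.Injective r)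
    (he : ∀ i, e i ≠ 0) (hP : ∀ i k, ∑ l, e i l * (PP l k).eval (r i) = 0) (c : Fin M → N)
    (h0 : ∀ (j : Fin b) (l : Fin m), ∑ i, c i * (r i ^ (j : ℕ) * e i l) = 0) : c = 0 := by
  classical
  have key : ∀ v : Fin m → N[X], ∑ i, c i * ∑ l, e i l * (v l).eval (r i) = 0 := by
    intro v
    obtain ⟨n, hn⟩ : ∃ n : ℕ, ∀ l, (v l).degree < n := by
      refine ⟨(Finset.univ.sup fun l => (v l).natDegree) + 1, fun l => ?_⟩
      refine lt_of_le_of_lt Polynomial.degree_le_natDegree ?_
      have := Finset.le_sup (f := fun l => (v l).natDegree) (Finset.mem_univ l)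
      exact_mod_cast Nat.lt_succ_of_le this
    obtain ⟨h, ρ, h1, h2⟩ := Pool.Agent.N558.AW.division m b PP (Units.mk0 a ha) hdeg hc n v hn
    have h3 : ∀ i, ∑ l, e i l * (v l).eval (r i) = ∑ l, e i l * (ρ l).eval (r i) := by
      intro i
      have h4 : ∀ l, e i l * (v l).eval (r i) =
          ∑ k, e i l * (PP l k).eval (r i) * (h k).eval (r i) + e i l * (ρ l).eval (r i) := by
        intro l
        have h5 := congrArg (Polynomial.eval (r i)) (h1 l)
        rw [Polynomial.eval_add, Polynomial.eval_finsetSum] at h5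
        rw [h5, mul_add, Finset.mul_sum]
        congr 1
        refine Finset.sum_congr rfl fun k _ => ?_
        rw [Polynomial.eval_mul, mul_assoc]
      rw [Finset.sum_congr rfl fun l _ => h4 l, Finset.sum_add_distrib, Finset.sum_comm]
      rw [Finset.sum_eq_zero fun k _ => ?_, zero_add]
      rw [← Finset.sum_mul, hP i k, zero_mul]
    have h6 : ∀ l i, (ρ l).eval (r i) = ∑ j : Fin b, (ρ l).coeff j * r i ^ (j : ℕ) := by
      intro l i
      have h7 := congrArg (Polynomial.eval (r i)) (Pool.Agent.N558.AW.eq_sum_fin b (ρ l) (h2 l))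
      rw [Polynomial.eval_finsetSum] at h7
      rw [h7]
      refine Finset.sum_congr rfl fun j _ => ?_
      rw [Polynomial.eval_mul, Polynomial.eval_C, Polynomial.eval_pow, Polynomial.eval_X]
    have h8 : ∀ i, c i * ∑ l, e i l * (v l).eval (r i) =
        ∑ l, ∑ j : Fin b, (ρ l).coeff j * (c i * (r i ^ (j : ℕ) * e i l)) := by
      intro i
      rw [h3, Finset.mul_sum]
      refine Finset.sum_congr rfl fun l _ => ?_
      rw [h6, Finset.mul_sum, Finset.mul_sum]
      exact Finset.sum_congr rfl fun j _ => by ring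
    rw [Finset.sum_congr rfl fun i _ => h8 i, Finset.sum_comm]
    refine Finset.sum_eq_zero fun l _ => ?_
    rw [Finset.sum_comm]
    refine Finset.sum_eq_zero fun j _ => ?_
    rw [← Finset.mul_sum, h0 j l, mul_zero]
  funext i0
  obtain ⟨l0, hl0⟩ : ∃ l, e i0 l ≠ 0 := by
    by_contra hcon
    push Not at hcon
    exact he i0 (funext hcon)
  obtain ⟨p, hp⟩ : ∃ p : N[X], p = ∏ i ∈ Finset.univ.erase i0, (X - C (r i)) := ⟨_, rfl⟩
  have hp0 : ∀ i, i ≠ i0 → p.eval (r i) = 0 := by
    intro i hi
    rw [hp, Polynomial.eval_prod]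
    refine Finset.prod_eq_zero (Finset.mem_erase.2 ⟨hi, Finset.mem_univ i⟩) ?_
    rw [Polynomial.eval_sub, Polynomial.eval_X, Polynomial.eval_C, sub_self]
  have hp1 : p.eval (r i0) ≠ 0 := by
    rw [hp, Polynomial.eval_prod]
    refine Finset.prod_ne_zero_iff.2 fun i hi => ?_
    rw [Polynomial.eval_sub, Polynomial.eval_X, Polynomial.eval_C]
    exact sub_ne_zero.2 fun h => (Finset.mem_erase.1 hi).1 (hr h).symm
  have h1 := key (fun l => if l = l0 then p else 0)
  have h2 : ∀ i, ∑ l, e i l * ((if l = l0 then p else 0 : N[X])).eval (r i) =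
      e i l0 * p.eval (r i) := by
    intro i
    rw [Finset.sum_eq_single l0]
    · rw [if_pos rfl]
    · intro l _ hl
      rw [if_neg hl, Polynomial.eval_zero, mul_zero]
    · intro h
      exact absurd (Finset.mem_univ _) h
  rw [Finset.sum_congr rfl fun i _ => by rw [h2 i], Finset.sum_eq_single i0] at h1
  · rcases mul_eq_zero.1 h1 with h3 | h3
    · exact h3
    · exact absurd h3 (mul_ne_zero hl0 hp1)
  · intro i _ hi
    rw [hp0 i hi, mul_zero, mul_zero]
  · intro h
    exact absurd (Finset.mem_univ _) h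

theorem t_ha : Pool.Agent.N70.EQ.St_ha := by
  classical
  intro N _ m b PP F a E Ft r e f ha hdeg hc hDiv hr he hP hF
  obtain ⟨h, hh⟩ := hDiv
  have key : ∀ i (x : Fin b × Fin m), a ^ E * f i * (r i ^ (x.1 : ℕ) * e i x.2) =
      ∑ y : Fin b × Fin m, (r i ^ (y.1 : ℕ) * e i y.2) * Ft y x := by
    intro i x
    have h1 : ∀ l', e i l' * (a ^ E * (r i ^ (x.1 : ℕ) * (F l' x.2).eval (r i))) =
        ∑ k, e i l' * (PP l' k).eval (r i) * (h x k).eval (r i) +
          ∑ j' : Fin b, e i l' * (Ft (j', l') x * r i ^ (j' : ℕ)) := by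
      intro l'
      have h2 := congrArg (Polynomial.eval (r i)) (hh x l')
      simp only [Polynomial.eval_mul, Polynomial.eval_C, Polynomial.eval_pow, Polynomial.eval_X,
        Polynomial.eval_add, Polynomial.eval_finsetSum] at h2
      rw [h2, mul_add, Finset.mul_sum, Finset.mul_sum]
      congr 1
      exact Finset.sum_congr rfl fun k _ => by ring
    have h3 : ∑ l', e i l' * (a ^ E * (r i ^ (x.1 : ℕ) * (F l' x.2).eval (r i))) =
        a ^ E * f i * (r i ^ (x.1 : ℕ) * e i x.2) := by
      have h4 : ∑ l', e i l' * (a ^ E * (r i ^ (x.1 : ℕ) * (F l' x.2).eval (r i))) =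
          a ^ E * r i ^ (x.1 : ℕ) * ∑ l', e i l' * (F l' x.2).eval (r i) := by
        rw [Finset.mul_sum]
        exact Finset.sum_congr rfl fun l' _ => by ring
      rw [h4, hF i x.2]
      ring
    have h4 : ∑ l', ∑ k, e i l' * (PP l' k).eval (r i) * (h x k).eval (r i) = 0 := by
      rw [Finset.sum_comm]
      refine Finset.sum_eq_zero fun k _ => ?_
      rw [← Finset.sum_mul, hP i k, zero_mul]
    rw [← h3, Finset.sum_congr rfl fun l' _ => h1 l', Finset.sum_add_distrib, h4, zero_add,
      Fintype.sum_prod_type, Finset.sum_comm]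
    exact Finset.sum_congr rfl fun j _ => Finset.sum_congr rfl fun l _ => by ring
  let q : Fin (m * b) ≃ Fin b × Fin m := (finCongr (mul_comm m b)).trans finProdFinEquiv.symm
  obtain ⟨V, hV⟩ : ∃ V : Matrix (Fin (m * b)) (Fin (m * b)) N, V = Matrix.of fun i t =>
    r i ^ ((q t).1 : ℕ) * e i (q t).2 := ⟨_, rfl⟩
  have hdet : V.det ≠ 0 := by
    intro h0
    obtain ⟨c, hc0, hcV⟩ := Matrix.exists_vecMul_eq_zero_iff.2 h0
    apply hc0
    refine indep PP a r e ha hdeg hc hr he hP c fun j l => ?_
    have h1 := congrFun hcV (q.symm (j, l))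
    rw [hV] at h1
    simp only [Matrix.vecMul, dotProduct, Matrix.of_apply, Equiv.apply_symm_apply,
      Pi.zero_apply] at h1
    exact h1
  have hmul : Matrix.diagonal (fun i => a ^ E * f i) * V = V * Ft.submatrix q q := by
    ext i t
    rw [Matrix.diagonal_mul, Matrix.mul_apply, hV]
    simp only [Matrix.of_apply, Matrix.submatrix_apply]
    rw [key]
    exact (Equiv.sum_comp q fun y => r i ^ (y.1 : ℕ) * e i y.2 * Ft y (q t)).symm
  have h5 := congrArg Matrix.det hmul
  rw [Matrix.det_mul, Matrix.det_mul, Matrix.det_diagonal, Matrix.det_submatrix_equiv_self,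
    mul_comm, Finset.prod_mul_distrib, Finset.prod_const, Finset.card_univ, Fintype.card_fin,
    ← pow_mul] at h5
  exact (mul_left_cancel₀ hdet h5).symm

end Pool.Agent.N755.EQ
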